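import Pool.Agent.UL3.Stmts

set_option autoImplicit false

open MeasureTheory Set

namespace Pool.Agent.UL3.H3

theorem smul_int {M : Set (ℝ × ℝ)} (h : PB M) {x : ℝ × ℝ} (hx : x ∈ M) {s : ℝ} (hs : |s| < 1) :
    s • x ∈ interior M := by
  rw [abs_lt] at hs
  rcases le_total 0 s with h0 | h0
  · have h2 := h.cvx.combo_interior_self_mem_interior h.zero_mem hx (a := 1 - s) (b := s)
      (by linarith) h0 (by ring)
    have h3 : (1 - s) • (0 : ℝ × ℝ) + s • x = s • x := by rw [smul_zero, zero_add]
    rwa [h3] at h2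
  · have h2 := h.cvx.combo_interior_self_mem_interior h.zero_mem (h.sym x hx) (a := 1 + s)
      (b := -s) (by linarith) (by linarith) (by ring)
    have h3 : (1 + s) • (0 : ℝ × ℝ) + (-s) • (-x) = s • x := by
      rw [smul_zero, zero_add, smul_neg, neg_smul, neg_neg]
    rwa [h3] at h2

theorem bdry {M : Set (ℝ × ℝ)} (h : PB M) : ∃ a ∈ M, a ∉ interior M := by
  by_contra hcon
  push Not at hcon
  have hop : IsOpen M := by
    have h1 : interior M = M := le_antisymm interior_subset hcon
    rw [← h1]
    exact isOpen_interior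
  have hcl : IsClopen M := ⟨h.cpt.isClosed, hop⟩
  have hne : M.Nonempty := ⟨0, interior_subset h.zero_mem⟩
  have hu : M = univ := hcl.eq_univ hne
  have hc := h.cpt
  rw [hu] at hc
  exact noncompact_univ (ℝ × ℝ) hc

theorem cr_cont : Continuous fun p : (ℝ × ℝ) × (ℝ × ℝ) => cr p.1 p.2 := by
  unfold cr
  fun_prop

theorem pab (h1 : PaaStmt) : PabStmt := by
  intro M hM
  let S : Set ((ℝ × ℝ) × (ℝ × ℝ)) := {p | p.1 ∈ M ∧ p.2 ∈ M ∧ p.2 - p.1 ∈ M ∧
    Adm2 M p.1 p.2 ∧ 0 ≤ cr p.1 p.2}
  have hScl : IsCompact S := by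
    have e : S = (M ×ˢ M) ∩ ({p | p.2 - p.1 ∈ M} ∩ ({p | Adm2 M p.1 p.2} ∩
        {p | 0 ≤ cr p.1 p.2})) := by
      ext p
      constructor
      · rintro ⟨a1, a2, a3, a4, a5⟩
        exact ⟨⟨a1, a2⟩, a3, a4, a5⟩
      · rintro ⟨⟨a1, a2⟩, a3, a4, a5⟩
        exact ⟨a1, a2, a3, a4, a5⟩
    rw [e]
    refine (hM.cpt.prod hM.cpt).inter_right ?_
    refine IsClosed.inter ?_ (IsClosed.inter ?_ ?_)
    · have hc : Continuous fun p : (ℝ × ℝ) × (ℝ × ℝ) => p.2 - p.1 := by fun_prop
      exact hM.cpt.isClosed.preimage hc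
    · have e2 : {p : (ℝ × ℝ) × (ℝ × ℝ) | Adm2 M p.1 p.2} =
          ⋂ (m : ℤ) (n : ℤ) (_ : m ≠ 0 ∨ n ≠ 0),
            {p : (ℝ × ℝ) × (ℝ × ℝ) | (m : ℝ) • p.1 + (n : ℝ) • p.2 ∈ (interior M)ᶜ} := by
        ext p
        simp only [mem_iInter]
        rfl
      rw [e2]
      refine isClosed_iInter fun m => isClosed_iInter fun n => isClosed_iInter fun _ => ?_
      have hc : Continuous fun p : (ℝ × ℝ) × (ℝ × ℝ) => (m : ℝ) • p.1 + (n : ℝ) • p.2 := by
        fun_prop
      exact (isOpen_interior.isClosed_compl).preimage hc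
    · exact isClosed_le continuous_const cr_cont
  obtain ⟨a0, ha0, ha0'⟩ := bdry hM
  obtain ⟨b0, hb0, hb0', hadm0, hcr0⟩ := h1 M hM a0 ha0 ha0'
  have hSne : S.Nonempty := ⟨(a0, b0), ha0, hb0, hb0', hadm0, hcr0.le⟩
  obtain ⟨⟨a, b⟩, hab, hmin⟩ := hScl.exists_isMinOn hSne cr_cont.continuousOn
  obtain ⟨ha, hb, hba, hadm, hcr⟩ := hab
  simp only at ha hb hba hadm hcr
  refine ⟨a, b, ha, hb, hba, hadm, ?_, ?_⟩
  · rcases hcr.lt_or_eq with h | h
    · exact h
    · exfalso
      have haint : a ∉ interior M := by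
        have h2 := hadm 1 0 (Or.inl one_ne_zero)
        simpa using h2
      have hbint : b ∉ interior M := by
        have h2 := hadm 0 1 (Or.inr one_ne_zero)
        simpa using h2
      have ha0 : a ≠ 0 := by
        intro e
        rw [e] at haint
        exact haint hM.zero_mem
      have hbeta : ∃ β : ℝ, b = β • a := by
        unfold cr at h
        by_cases h3 : a.1 = 0
        · have h4 : a.2 ≠ 0 := by
            intro h5
            exact ha0 (Prod.ext h3 h5)
          refine ⟨b.2 / a.2, Prod.ext ?_ ?_⟩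
          · rw [h3, zero_mul, zero_sub] at h
            have h6 : a.2 * b.1 = 0 := by linarith
            have h7 : b.1 = 0 := by
              rcases mul_eq_zero.1 h6 with h8 | h8
              · exact absurd h8 h4
              · exact h8
            rw [Prod.smul_fst, h3, h7, smul_zero]
          · rw [Prod.smul_snd, smul_eq_mul]
            field_simp
        · refine ⟨b.1 / a.1, Prod.ext ?_ ?_⟩
          · rw [Prod.smul_fst, smul_eq_mul]
            field_simp
          · rw [Prod.smul_snd, smul_eq_mul]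
            field_simp
            linarith
      obtain ⟨β, hβ⟩ := hbeta
      rcases lt_trichotomy |β| 1 with h2 | h2 | h2
      · apply hbint
        rw [hβ]
        exact smul_int hM ha h2
      · rcases (abs_eq (zero_le_one' ℝ)).1 h2 with h3 | h3
        · have h4 : b = a := by rw [hβ, h3, one_smul]
          have h5 := hadm (-1) 1 (Or.inr one_ne_zero)
          rw [h4] at h5
          apply h5
          have h6 : ((-1 : ℤ) : ℝ) • a + ((1 : ℤ) : ℝ) • a = 0 := by
            push_cast
            module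
          rw [h6]
          exact hM.zero_mem
        · have h4 : b = -a := by rw [hβ, h3, neg_smul, one_smul]
          apply haint
          have h5 : a = (-(1 / 2) : ℝ) • (b - a) := by
            rw [h4]
            module
          rw [h5]
          refine smul_int hM hba ?_
          rw [abs_neg, abs_of_pos (by norm_num)]
          norm_num
      · apply haint
        have hβ0 : β ≠ 0 := by
          intro e
          rw [e, abs_zero] at h2
          linarith
        have h5 : a = β⁻¹ • b := by
          rw [hβ, smul_smul, inv_mul_cancel₀ hβ0, one_smul]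
        rw [h5]
        refine smul_int hM hb ?_
        rw [abs_inv]
        exact inv_lt_one_of_one_lt₀ h2
  · intro a' b' ha' hb' hba' hadm' hcr'
    exact hmin (⟨ha', hb', hba', hadm', hcr'.le⟩ : (a', b') ∈ S)

end Pool.Agent.UL3.H3
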